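import Pool.Agent.Lib.MP_f9eb18_lc.W.Main
import Pool.Agent.Lib.MP_f9eb18_lc.W.B5
import Pool.Agent.Lib.MP_f9eb18_lc.W.R2

namespace Pool.Agent.Results.MP_f9eb18_lc.Consistent

open Pool.Agent.Lib.MP_f9eb18_lc Pool.Agent.Lib.MP_f9eb18_lc.W

/-- If some transitive (set or class) model of ZFC has `n ≥ 1` Woodin cardinals, then some
countable transitive model of ZFC has `n` Woodin cardinals and `CH` fails in its `C^2(ω)`. -/
theorem result (n : ℕ) (hn : 1 ≤ n) (U : Set V) (hU : IsZFC U) (hW : NWoodins U n) :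
    ∃ N : Set V, N.Countable ∧ IsZFC N ∧ NWoodins N n ∧ ¬ CHinC2N N :=
  main_of rt coding n hn U hU hW

end Pool.Agent.Results.MP_f9eb18_lc.Consistent
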